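import Pool.Agent.H253.BK.PTwA

/-!
# BK, part PTw: the twisted trace formula

The points `x` with `x_i ^ q = β_i x_i` are `x_i = b_i z_i`, `z_i ∈ F_q`, `b_i ^ (q - 1) = β_i`, and
`f (b z)` has coefficients in `F_q`.  The polynomial of the trace formula for `f (b z)` is obtained from
that of `f` by the substitution `z ↦ τ(b) z`; so the coefficient of the exponent `(q - 1) (v + 1_A)` is
multiplied by `∏ τ(β_i) ^ (v + 1_A)_i`.
-/

set_option autoImplicit false
set_option linter.unusedSectionVars false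
set_option linter.unusedVariables false

namespace Pool.Agent.H253.BK

open MvPolynomial Pool.Agent.H425 Pool.Agent.H887.BK Pool.Agent.H935.BK

section subst

variable {ι : Type} [Fintype ι] [DecidableEq ι] {L : Type} [CommRing L]

/-- the substitution `x_i ↦ σ_i x_i` -/
noncomputable def sbs (σ : ι → L) : MvPolynomial ι L →ₐ[L] MvPolynomial ι L :=
  aeval (fun i => C (σ i) * X i)

theorem sbs_monomial (σ : ι → L) (m : ι →₀ ℕ) (r : L) :
    sbs σ (monomial m r) = monomial m ((∏ i, σ i ^ (m i)) * r) := by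
  rw [sbs, aeval_monomial, Finsupp.prod_fintype _ _ (fun _ => pow_zero _), algebraMap_eq]
  have h1 : ∏ i, (C (σ i) * X i : MvPolynomial ι L) ^ (m i) =
      C (∏ i, σ i ^ (m i)) * monomial m 1 := by
    rw [monomial_eq, Finsupp.prod_fintype _ _ (fun _ => pow_zero _), map_prod]
    simp only [mul_pow, Finset.prod_mul_distrib, C_1, one_mul, map_pow]
  rw [h1, ← mul_assoc, ← C_mul, C_mul_monomial, mul_one, mul_comm r]

theorem coeff_sbs (σ : ι → L) (P : MvPolynomial ι L) (m : ι →₀ ℕ) :
    coeff m (sbs σ P) = (∏ i, σ i ^ (m i)) * coeff m P := by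
  have h : (lcoeff L m) ∘ₗ (sbs σ).toLinearMap = (∏ i, σ i ^ (m i)) • lcoeff L m := by
    refine linmap_ext fun u => ?_
    rw [LinearMap.comp_apply, AlgHom.toLinearMap_apply, sbs_monomial, lcoeff_apply,
      LinearMap.smul_apply, lcoeff_apply, coeff_monomial, coeff_monomial, smul_eq_mul]
    split_ifs with h
    · rw [h]
    · rw [mul_zero]
  exact LinearMap.congr_fun h P

end subst

section

variable {p d : ℕ} [hp : Fact p.Prime] {K R : Type} [Field K] [CommRing R] [IsDomain R]
  (S : Setup p d K R) {ι : Type} [Fintype ι] [DecidableEq ι]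

theorem sbs_expand_fs (N q : ℕ) (s : ι →₀ ℕ) (c : R) (σ : ι → S.Q N) :
    sbs σ (MvPolynomial.expand q (S.fs N s c)) =
      Polynomial.aeval (monomial (q • s) ((∏ i, σ i ^ (q * s i)) * S.rd N c)) (S.thp N) := by
  rw [Setup.fs, ← Polynomial.aeval_algHom_apply, ← Polynomial.aeval_algHom_apply, expand_monomial,
    sbs_monomial]
  rfl

theorem expand_fs (N q : ℕ) (s : ι →₀ ℕ) (c : R) :
    MvPolynomial.expand q (S.fs N s c) =
      Polynomial.aeval (monomial (q • s) (S.rd N c)) (S.thp N) := by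
  rw [Setup.fs, ← Polynomial.aeval_algHom_apply, expand_monomial]

theorem tau_wk (b : ι → K) (m : ι →₀ ℕ) : S.tau (wk b m) = ∏ i, S.tau (b i) ^ (m i) := by
  rw [wk, map_prod]
  exact Finset.prod_congr rfl fun i _ => map_pow _ _ _

/-- the polynomials of the trace formula for `f (x)` and `f (b x)` -/
theorem GG_subst (hd : 0 < d) (N : ℕ) (f g : MvPolynomial ι K) (b : ι → K) (hb : ∀ i, b i ≠ 0)
    (hf : ∀ m, coeff m f ≠ 0 → m.degree = d)
    (hg : ∀ m, coeff m g = coeff m f * wk b m) (a : ℕ) (m : ι →₀ ℕ) :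
    coeff m (GG S N g a) = S.rd N (S.tau (wk b m)) * coeff m (GG S N f a) := by
  have hsu : Setup.su g = Setup.su f := by
    have h : g.support = f.support := by
      ext m
      rw [mem_support_iff, mem_support_iff, hg]
      constructor
      · intro h h'
        exact h (by rw [h', zero_mul])
      · exact fun h => mul_ne_zero h (wk_ne b hb m)
    rw [Setup.su, Setup.su, h]
  have hg' : ∀ m, coeff m g ≠ 0 → m.degree = d := by
    intro m hm
    apply hf
    intro h
    apply hm
    rw [hg, h, zero_mul]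
  have key : GG S N g a = sbs (fun i => S.rd N (S.tau (b i))) (GG S N f a) := by
    rw [GG, GG, map_prod]
    refine Finset.prod_congr rfl fun t _ => ?_
    rw [Setup.Fpoly, Setup.Fpoly, tc_zero S hd f hf, tc_zero S hd g hg', hsu, map_mul, map_mul,
      map_mul, map_prod, map_prod, map_prod]
    congr 1
    · rw [MvPolynomial.expand_C]
      exact ((sbs (fun i => S.rd N (S.tau (b i)))).commutes _).symm
    · refine Finset.prod_congr rfl fun s _ => ?_
      rw [sbs_expand_fs, expand_fs]
      congr 3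
      rw [Setup.tc, Setup.tc, hg, map_mul, tau_wk, mul_pow, map_mul, mul_comm, map_pow, map_prod,
        ← Finset.prod_pow]
      congr 1
      refine Finset.prod_congr rfl fun i _ => ?_
      rw [map_pow, ← pow_mul, mul_comm (s i)]
  rw [key, coeff_sbs, tau_wk, map_prod]
  simp only [map_pow]

end

section

variable {p : ℕ} [hp : Fact p.Prime] {K R : Type} [Field K] [CommRing R] [IsDomain R]
  {e : ℕ} {S : Setup p (e + 1) K R} {ι : Type} [Fintype ι] [DecidableEq ι] {N : ℕ}
  {f : MvPolynomial ι K}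

/-- the character of the weighted trace -/
noncomputable def ch (S : Setup p (e + 1) K R) (N : ℕ) (β : ι → K) (A : Finset ι) (w : ι →₀ ℕ) :
    S.Q N :=
  if (e + 1) ∣ w.degree + A.card then S.rd N (S.tau (wk β (w + oneA A))) else 0

theorem ch_congr (β : ι → K) (A : Finset ι) (u v : ι →₀ ℕ) (h1 : v.degree ≡ u.degree [MOD (e + 1)])
    (h2 : wk β v = wk β u) : ch S N β A v = ch S N β A u := by
  have e1 : (e + 1) ∣ v.degree + A.card ↔ (e + 1) ∣ u.degree + A.card := by
    rw [Nat.dvd_iff_mod_eq_zero, Nat.dvd_iff_mod_eq_zero, Nat.ModEq.add_right A.card h1]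
  rw [ch, ch, wk_add, wk_add, h2]
  by_cases h : (e + 1) ∣ u.degree + A.card
  · rw [if_pos h, if_pos (e1.2 h)]
  · rw [if_neg h, if_neg (fun h' => h (e1.1 h'))]

theorem CX_of {β : ι → K} {A : Finset ι} {T : MvPolynomial ι (S.Q N) →ₗ[S.Q N] MvPolynomial ι (S.Q N)}
    (h1 : ∀ u v : ι →₀ ℕ, ¬ (v.degree ≡ u.degree [MOD (e + 1)]) → coeff v (T (monomial u 1)) = 0)
    (h2 : ∀ u v : ι →₀ ℕ, wk β v ≠ wk β u → coeff v (T (monomial u 1)) = 0) :
    CX (ch S N β A) T := by
  apply CX.of_coeff
  intro u v huv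
  by_cases h3 : v.degree ≡ u.degree [MOD (e + 1)]
  · by_cases h4 : wk β v = wk β u
    · exact absurd (ch_congr β A u v h3 h4) huv
    · exact h2 u v h4
  · exact h1 u v h3

theorem beta_p {β : ι → K} (hpd : p ≡ 1 [MOD (e + 1)]) (hβ : ∀ i, β i ^ (e + 1) = 1) (i : ι) :
    β i ^ p = β i := by
  have h1 := hp.out.two_le
  obtain ⟨k, hk⟩ := (Nat.modEq_iff_dvd' (by omega : 1 ≤ p)).1 hpd.symm
  have h2 : p = (e + 1) * k + 1 := by omega
  rw [h2, pow_succ, pow_mul, hβ, one_pow, one_mul]

theorem CX_alt (hp4 : 4 ≤ p) (hpd : p ≡ 1 [MOD (e + 1)]) (β : ι → K) (hβ : ∀ i, β i ^ (e + 1) = 1)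
    (hf : ∀ m, coeff m f ≠ 0 → m.degree = e + 1) (hfw : ∀ m, coeff m f ≠ 0 → wk β m = 1)
    (A A' : Finset ι) (t : ℕ) : CX (ch S N β A') (S.alt N f A t) := by
  have hβ0 : ∀ i, β i ≠ 0 := by
    intro i h
    have := hβ i
    rw [h, zero_pow (by omega)] at this
    exact zero_ne_one this
  apply CX_of
  · intro u v hv
    rw [S.coeff_alt hp4 N f (totalDegree_le_of_homog f hf), Setup.kb, ker_zero S hp4 (by omega) hpd _ _
      (Setup.su_zero f) (su_homog f hf), map_zero, mul_zero, zero_mul]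
    intro h
    apply hv
    rw [map_add, map_add] at h
    exact Nat.ModEq.add_right_cancel' _ h
  · intro u v hv
    rw [S.coeff_alt hp4 N f (totalDegree_le_of_homog f hf), Setup.kb, ker_wk S hp4 β hβ0
      (beta_p hpd hβ) _ _ (Setup.su_zero f) (fun s hs => (su_homog f hf s hs).le), map_zero, mul_zero,
      zero_mul]
    · intro s hs
      rw [Setup.su, Finset.mem_erase, mem_support_iff] at hs
      exact hfw s hs.2
    · intro h
      apply hv
      rw [wk_add, wk_add] at h
      exact mul_right_cancel₀ (wk_ne β hβ0 _) h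

theorem CX_compn {χ : (ι →₀ ℕ) → S.Q N}
    {T : ℕ → (MvPolynomial ι (S.Q N) →ₗ[S.Q N] MvPolynomial ι (S.Q N))} (h : ∀ t, CX χ (T t))
    (a : ℕ) : CX χ (H425.compn T a) := by
  induction a with
  | zero => intro P; rfl
  | succ a ih => exact (h a).comp ih

theorem CLW_Hh (β : ι → K) (f : MvPolynomial ι K) (hfw : ∀ m, coeff m f ≠ 0 → wk β m = 1)
    (c : (ι →₀ ℕ) → R) : CLW β 1 (S.Hh N (Setup.su f) c) := by
  rw [Setup.Hh]
  apply CLW.sum
  intro s hs
  have := CLW.monomial (L := S.Q N) β s (S.rd N (c s * S.lam ^ (e + 1 - s.degree)))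
  rw [Setup.su, Finset.mem_erase, mem_support_iff] at hs
  rwa [hfw s hs.2] at this

theorem CX_EE (β : ι → K) (hβ : ∀ i, β i ^ (e + 1) = 1)
    (hf : ∀ m, coeff m f ≠ 0 → m.degree = e + 1) (hfw : ∀ m, coeff m f ≠ 0 → wk β m = 1)
    (D : S.BD N f e emb) (A : Finset ι) (t : ℕ) : CX (ch S N β A) (Setup.EE D t).toLinearMap := by
  have h : CX (ch S N β A) (Phi (S.Hh N (Setup.su f) (S.tc f t)) e D.he emb) := by
    apply CX_of
    · intro u v hv
      exact Phi_deg D.he (CL_Hh (S := S) (N := N) f hf (S.tc f t)) (D.hY t).hb u v hv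
    · intro u v hv
      exact Phi_wk D.he hβ (CLW_Hh β f hfw (S.tc f t)) u v hv
  intro P
  exact h P

/-- the weighted traces of the two versions of the operators -/
theorem xtr_gop (hpd : p ≡ 1 [MOD (e + 1)]) (β : ι → K) (hβ : ∀ i, β i ^ (e + 1) = 1)
    (hf : ∀ m, coeff m f ≠ 0 → m.degree = e + 1) (hfw : ∀ m, coeff m f ≠ 0 → wk β m = 1)
    (D : S.BD N f e emb) (A : Finset ι)
    (a M : ℕ) (hM : N ≤ M) (h : S.tc f a = S.tc f 0) :
    xtr (ch S N β A) M (compn (Setup.gop D A) a) = xtr (ch S N β A) M (compn (S.alt N f A) a) := by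
  have hp5 := D.hp5
  rw [xtr_eq, xtr_eq]
  have h1 : dg (ch S N β A) ∘ₗ compn (Setup.gop D A) a = (Setup.EE D 0).symm.toLinearMap ∘ₗ
      ((dg (ch S N β A) ∘ₗ compn (S.alt N f A) a) ∘ₗ (Setup.EE D 0).toLinearMap) := by
    refine LinearMap.ext fun P => ?_
    change dg (ch S N β A) (compn (Setup.gop D A) a P) =
      (Setup.EE D 0).symm (dg (ch S N β A) (compn (S.alt N f A) a (Setup.EE D 0 P)))
    rw [Setup.compn_gop, Setup.EE_congr D h]
    exact ((CX_EE β hβ hf hfw D A 0).symm _).symm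
  have hE : ∀ P ∈ VV ι (S.Q N) M, (Setup.EE D 0).toLinearMap P ∈ VV ι (S.Q N) M :=
    fun P hP => Setup.EE_mem D 0 hP
  have hT0 : ∀ P ∈ VV ι (S.Q N) M, compn (S.alt N f A) a P ∈ VV ι (S.Q N) M :=
    compn_mem _ (fun t P _ => VV_mono hM (S.alt_mem (by omega) N f D.hf A t P)) a
  have hT : ∀ P ∈ VV ι (S.Q N) M, (dg (ch S N β A) ∘ₗ compn (S.alt N f A) a) P ∈ VV ι (S.Q N) M := by
    intro P hP
    rw [LinearMap.comp_apply]
    exact dg_mem _ (hT0 P hP)
  have hT1 : ∀ P ∈ VV ι (S.Q N) M, ((dg (ch S N β A) ∘ₗ compn (S.alt N f A) a) ∘ₗ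
      (Setup.EE D 0).toLinearMap) P ∈ VV ι (S.Q N) M := by
    intro P hP
    rw [LinearMap.comp_apply]
    exact hT _ (hE P hP)
  have h2 : (Setup.EE D 0).toLinearMap ∘ₗ (Setup.EE D 0).symm.toLinearMap = LinearMap.id := by
    refine LinearMap.ext fun P => ?_
    exact (Setup.EE D 0).apply_symm_apply P
  have h3 : mat M (Setup.EE D 0).toLinearMap * mat M (Setup.EE D 0).symm.toLinearMap = 1 := by
    rw [← mat_comp (M := M) (Setup.EE D 0).toLinearMap (Setup.EE D 0).symm.toLinearMap
      (fun P hP => Setup.EE_symm_mem D 0 hP), h2, mat_id]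
  rw [h1, mat_comp _ _ hT1, mat_comp _ _ hE, Matrix.trace_mul_comm, Matrix.mul_assoc, h3,
    Matrix.mul_one]

/-- the cube formula for the weighted traces -/
theorem cube_xtr (hpd : p ≡ 1 [MOD (e + 1)]) (β : ι → K) (hβ : ∀ i, β i ^ (e + 1) = 1)
    (D : S.BD N f e emb) (hf : ∀ m, coeff m f ≠ 0 → m.degree = e + 1)
    (hfw : ∀ m, coeff m f ≠ 0 → wk β m = 1)
    (hfp : ∀ s, coeff s f ^ p = coeff s f) (a M : ℕ) (ha : 1 ≤ a) (hM : N ≤ M) :
    ∑ u ∈ Finset.univ.filter (fun u : ι → Fin e => (e + 1) ∣ wt u),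
      S.rd N (∏ i, S.tau (β i) ^ ((u i : ℕ) + 1)) * ((Setup.Bt D 0) ^ a) u u =
      ∑ B : Finset ι, (-((p ^ a : ℕ) : S.Q N)) ^ B.card *
        xtr (ch S N β (Finset.univ \ B)) M (compn (S.alt N f (Finset.univ \ B)) a) := by
  have htc : S.tc f a = S.tc f 0 := by
    funext s
    have h1 : ∀ a : ℕ, coeff s f ^ (p ^ a) = coeff s f := by
      intro a
      induction a with
      | zero => rw [pow_zero, pow_one]
      | succ a ih => rw [pow_succ, pow_mul, ih, hfp]
    rw [Setup.tc, Setup.tc, ← map_pow, h1, pow_zero, pow_one]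
  have hcube := cube_formula M e D.he ((p ^ a : ℕ) : S.Q N)
    (fun A w => ch S N β A w * coeff w (compn (Setup.gop D A) a (monomial w 1))) (by
      intro A w hw
      beta_reduce
      rw [Setup.compn_gop_mem D A a ha _ w (by omega), mul_zero]) (by
      intro A i hi w
      have h1 : (monomial (Finsupp.single i e + w) (1 : S.Q N)) = X i ^ e * monomial w 1 := by
        rw [X_pow_eq_monomial, monomial_mul, mul_one]
      have h2 : (e + 1) ∣ (Finsupp.single i e + w).degree + (insert i A).card ↔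
          (e + 1) ∣ w.degree + A.card := by
        rw [map_add, Finsupp.degree_single, Finset.card_insert_of_notMem hi]
        have : e + w.degree + (A.card + 1) = w.degree + A.card + (e + 1) := by ring
        rw [this]
        exact Nat.dvd_add_self_right
      have h4 : ch S N β (insert i A) (Finsupp.single i e + w) = ch S N β A w := by
        have h5 : wk β (Finsupp.single i e + w + oneA (insert i A)) = wk β (w + oneA A) := by
          rw [oneA_insert A i hi]
          simp only [wk_add, wk_single, pow_one]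
          have := hβ i
          rw [pow_succ] at this
          linear_combination (wk β w * wk β (oneA A)) * this
        rw [ch, ch, h5]
        by_cases h3 : (e + 1) ∣ w.degree + A.card
        · rw [if_pos h3, if_pos (h2.2 h3)]
        · rw [if_neg h3, if_neg (fun h => h3 (h2.1 h))]
      beta_reduce
      rw [h4, h1, Setup.compn_gop_X D A i hi, coeff_smul,
          X_pow_eq_monomial, coeff_monomial_mul, one_mul, smul_eq_mul]
      ring)
  beta_reduce at hcube
  have hBt : Setup.Bt D = fun _ => Setup.Bt D 0 := by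
    funext t
    induction t with
    | zero => rfl
    | succ t ih => rw [Setup.Bt_periodic D 1 (by simpa using hfp), ih]
  have hprod : prodn (Setup.Bt D) a = (Setup.Bt D 0) ^ a := by
    have h1 := Setup.prodn_mul (Setup.Bt D) 1 (fun t => by rw [hBt]) a
    rw [one_mul] at h1
    rw [h1]
    congr 1
    rw [prodn, prodn, Matrix.mul_one]
  rw [Finset.sum_filter]
  have hL : ∀ u : ι → Fin e, (if (e + 1) ∣ wt u then
      S.rd N (∏ i, S.tau (β i) ^ ((u i : ℕ) + 1)) * ((Setup.Bt D 0) ^ a) u u else 0) =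
      ch S N β Finset.univ (emb u) *
        coeff (emb u) (compn (Setup.gop D Finset.univ) a (monomial (emb u) 1)) := by
    intro u
    have h6 : wk β (emb u + oneA Finset.univ) = ∏ i, β i ^ ((u i : ℕ) + 1) := by
      rw [wk]
      refine Finset.prod_congr rfl fun i _ => ?_
      rw [Finsupp.add_apply, emb_apply, oneA_apply, if_pos (Finset.mem_univ i)]
    have h7 : S.tau (∏ i, β i ^ ((u i : ℕ) + 1)) = ∏ i, S.tau (β i) ^ ((u i : ℕ) + 1) := by
      rw [map_prod]
      exact Finset.prod_congr rfl fun i _ => map_pow _ _ _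
    rw [Setup.block_compn, hprod, ch, h6, h7, degree_emb, Finset.card_univ, ite_mul, zero_mul]
    rfl
  rw [Finset.sum_congr rfl (fun u _ => hL u), hcube]
  refine Finset.sum_congr rfl fun B _ => ?_
  rw [← xtr_gop hpd β hβ hf hfw D _ a M hM htc]
  rfl

end

/-- the twisted points are the points of `f (b x)` -/
theorem Nptw_eq {ι : Type} [Fintype ι] {p : ℕ} {K : Type} [Field K] (f g : MvPolynomial ι K)
    (b β : ι → K) (a : ℕ) (hb : ∀ i, b i ≠ 0) (hbβ : ∀ i, b i ^ (p ^ a) = β i * b i)
    (hfg : ∀ x : ι → K, eval x g = eval (fun i => b i * x i) f) :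
    Nptw p f β a = Npts p g a := by
  rw [Nptw, Npts]
  refine Nat.card_congr ?_
  refine {
    toFun := fun x => ⟨fun i => (b i)⁻¹ * x.1 i, ?_, ?_⟩
    invFun := fun z => ⟨fun i => b i * z.1 i, ?_, ?_⟩
    left_inv := ?_
    right_inv := ?_ }
  · intro i
    rw [mul_pow, x.2.1 i, inv_pow, hbβ i]
    by_cases h0 : β i = 0
    · have := hbβ i
      rw [h0, zero_mul] at this
      exact absurd this (pow_ne_zero _ (hb i))
    · have := hb i
      field_simp
  · rw [hfg]
    have e1 : (fun i => b i * ((b i)⁻¹ * x.1 i)) = x.1 := by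
      funext i
      rw [← mul_assoc, mul_inv_cancel₀ (hb i), one_mul]
    exact (congrArg (fun y => eval y f) e1).trans x.2.2
  · intro i
    rw [mul_pow, z.2.1 i, hbβ i, mul_assoc]
  · have := z.2.2
    rwa [hfg] at this
  · intro x
    apply Subtype.ext
    funext i
    change b i * ((b i)⁻¹ * x.1 i) = x.1 i
    rw [← mul_assoc, mul_inv_cancel₀ (hb i), one_mul]
  · intro z
    apply Subtype.ext
    funext i
    change (b i)⁻¹ * (b i * z.1 i) = z.1 i
    rw [← mul_assoc, inv_mul_cancel₀ (hb i), one_mul]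

theorem h_PTw : Pool.Agent.H887.BK.S_PTw := by
  intro ι _ _ p e hp K R _ _ _ _ _ S N c β hc hpd hβ hcβ D a ha
  set f := form (e + 1) c with hfdef
  have hp5 := D.hp5
  have hβ0 : ∀ i, β i ≠ 0 := by
    intro i h
    have := hβ i
    rw [h, zero_pow (by omega)] at this
    exact zero_ne_one this
  have hf : ∀ m, coeff m f ≠ 0 → m.degree = e + 1 := fun m hm => coeff_form_ne (e + 1) c m hm
  have hfp : ∀ s, coeff s f ^ p = coeff s f := by
    intro s
    rw [hfdef, coeff_form]
    split_ifs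
    · exact hc s
    · exact zero_pow hp.out.ne_zero
  have hpa : ∀ x : K, x ^ p = x → x ^ (p ^ a) = x := by
    intro x hx
    have h1 : ∀ a : ℕ, x ^ (p ^ a) = x := by
      intro a
      induction a with
      | zero => rw [pow_zero, pow_one]
      | succ a ih => rw [pow_succ, pow_mul, ih, hx]
    exact h1 a
  have hfw : ∀ m, coeff m f ≠ 0 → wk β m = 1 := by
    intro m hm
    rw [hfdef, coeff_form] at hm
    split_ifs at hm with h
    · exact hcβ m ((mem_Sd _ _).2 h) hm
    · exact absurd rfl hm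
  have hQ := hQ2 p ha
  -- the numbers `b`
  have hex : ∀ i, ∃ b : K, b ^ (p ^ a - 1) = β i := fun i =>
    IsAlgClosed.exists_pow_nat_eq (β i) (by omega)
  choose b hb using hex
  have hb0 : ∀ i, b i ≠ 0 := by
    intro i h
    have := hb i
    rw [h, zero_pow (by omega)] at this
    exact hβ0 i this.symm
  have hbβ : ∀ i, b i ^ (p ^ a) = β i * b i := by
    intro i
    rw [← hb i, ← pow_succ]
    congr 1
    omega
  set g := form (e + 1) (fun s => c s * wk b s) with hgdef
  have hgc : ∀ m, coeff m g = coeff m f * wk b m := by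
    intro m
    rw [hgdef, hfdef, coeff_form, coeff_form]
    split_ifs
    · rfl
    · rw [zero_mul]
  have hg : ∀ m, coeff m g ≠ 0 → m.degree = e + 1 := fun m hm => coeff_form_ne (e + 1) _ m hm
  have hga : ∀ s, coeff s g ^ (p ^ a) = coeff s g := by
    intro s
    rw [hgc, mul_pow, hpa _ (hfp s)]
    by_cases h : coeff s f = 0
    · rw [h, zero_mul, zero_mul]
    · congr 1
      have h1 : wk b s ^ (p ^ a - 1) = 1 := by
        rw [← hfw s h, wk, wk, ← Finset.prod_pow]
        refine Finset.prod_congr rfl fun i _ => ?_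
        rw [← pow_mul, mul_comm, pow_mul, hb]
      calc wk b s ^ (p ^ a) = wk b s ^ (p ^ a - 1 + 1) := by congr 1; omega
        _ = wk b s := by rw [pow_succ, h1, one_mul]
  have hfg : ∀ x : ι → K, eval x g = eval (fun i => b i * x i) f := by
    intro x
    rw [hgdef, hfdef, form, form, map_sum, map_sum]
    refine Finset.sum_congr rfl fun s _ => ?_
    rw [eval_monomial, eval_monomial, Finsupp.prod_fintype _ _ (fun _ => pow_zero _),
      Finsupp.prod_fintype _ _ (fun _ => pow_zero _)]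
    simp only [mul_pow, Finset.prod_mul_distrib, wk]
    ring
  obtain ⟨ζ, hζ⟩ := Setup.exists_prim (K := K) (p := p) a ha
  have hdvd : (e + 1) ∣ p ^ a - 1 := by
    have h1 : p ^ a ≡ 1 ^ a [MOD (e + 1)] := hpd.pow a
    rw [one_pow] at h1
    exact (Nat.modEq_iff_dvd' (Nat.one_le_pow _ _ hp.out.pos)).1 h1.symm
  have hA := Npts_sum S hp5 (by omega) N g a ha hga ζ hζ
  rw [sum_FQ hQ, sum_zero S hp5 (by omega) N g a ha ζ hζ,
    sum_units S hp5 (by omega) N g hg a (3 * N) ha le_rfl ζ hζ hdvd] at hA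
  rw [Nptw_eq f g b β a hb0 hbβ hfg, ← hA,
    cube_xtr hpd β hβ D hf hfw hfp a (3 * N) ha (by omega)]
  congr 1
  rw [mul_assoc, mul_left_comm]
  congr 1
  rw [Finset.mul_sum]
  refine Fintype.sum_bijective (fun A : Finset ι => Aᶜ) compl_bijective _ _ fun A => ?_
  rw [← Finset.compl_eq_univ_sdiff, compl_compl, neg_pow ((p ^ a : ℕ) : S.Q N)]
  have h5 : A.card + (Aᶜ).card = Fintype.card ι := Finset.card_add_card_compl A
  have h6 : (-1 : S.Q N) ^ Fintype.card ι * (-1) ^ (Aᶜ).card = (-1) ^ A.card := by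
    rw [← h5, pow_add, mul_assoc, ← mul_pow]
    simp
  have h7 : ∑ v ∈ DD ι (3 * N), (if (e + 1) ∣ v.degree + A.card then
      coeff ((p ^ a - 1) • (v + oneA A)) (GG S N g a) else 0) =
      xtr (ch S N β A) (3 * N) (compn (S.alt N f A) a) := by
    rw [xtr]
    refine Finset.sum_congr rfl fun v hv => ?_
    have h8 : wk b ((p ^ a - 1) • (v + oneA A)) = wk β (v + oneA A) := by
      rw [wk, wk]
      refine Finset.prod_congr rfl fun i _ => ?_
      rw [Finsupp.smul_apply, smul_eq_mul, pow_mul, hb]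
    rw [GG_subst S (by omega) N f g b hb0 hf hgc, h8,
      coeff_GG S (by omega) (by omega) N f D.hf A a (3 * N) le_rfl v hv, ch, ite_mul, zero_mul]
  rw [h7, ← h6]
  ring

end Pool.Agent.H253.BK
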