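import Pool.Agent.H887.BK.D3
import Pool.Agent.H935.BK.PT

/-!
# BK, part PTw: weights

The weight of the monomial `x ^ m` is `∏ β_i ^ (m_i)`, where `β_i ^ d = 1`. All operators of the trace
formula respect the weights; the diagonal operators `x ^ m ↦ χ(m) x ^ m` commute with them.
-/

set_option autoImplicit false
set_option linter.unusedSectionVars false
set_option linter.unusedVariables false

namespace Pool.Agent.H253.BK

open MvPolynomial Pool.Agent.H425 Pool.Agent.H887.BK Pool.Agent.H935.BK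

section wk

variable {ι : Type} [Fintype ι] [DecidableEq ι] {K : Type} [Field K]

/-- the weight of a monomial -/
noncomputable def wk (β : ι → K) (m : ι →₀ ℕ) : K := ∏ i, β i ^ (m i)

theorem wk_zero (β : ι → K) : wk β 0 = 1 := by
  rw [wk]
  exact Finset.prod_eq_one fun i _ => by rw [Finsupp.zero_apply, pow_zero]

theorem wk_add (β : ι → K) (m m' : ι →₀ ℕ) : wk β (m + m') = wk β m * wk β m' := by
  rw [wk, wk, wk, ← Finset.prod_mul_distrib]
  exact Finset.prod_congr rfl fun i _ => by rw [Finsupp.add_apply, pow_add]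

theorem wk_nsmul (β : ι → K) (n : ℕ) (m : ι →₀ ℕ) : wk β (n • m) = wk β m ^ n := by
  rw [wk, wk, ← Finset.prod_pow]
  exact Finset.prod_congr rfl fun i _ => by rw [Finsupp.smul_apply, smul_eq_mul, mul_comm, pow_mul]

theorem wk_single (β : ι → K) (i : ι) (a : ℕ) : wk β (Finsupp.single i a) = β i ^ a := by
  rw [wk, Finset.prod_eq_single i]
  · rw [Finsupp.single_eq_same]
  · intro j _ hj
    rw [Finsupp.single_eq_of_ne hj, pow_zero]
  · intro h
    exact absurd (Finset.mem_univ i) h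

theorem wk_ne (β : ι → K) (h : ∀ i, β i ≠ 0) (m : ι →₀ ℕ) : wk β m ≠ 0 :=
  Finset.prod_ne_zero_iff.2 fun i _ => pow_ne_zero _ (h i)

theorem wk_pow (β : ι → K) {n : ℕ} (h : ∀ i, β i ^ n = 1) (m : ι →₀ ℕ) : wk β m ^ n = 1 := by
  rw [wk, ← Finset.prod_pow]
  exact Finset.prod_eq_one fun i _ => by rw [← pow_mul, mul_comm, pow_mul, h, one_pow]

end wk

section CLW

variable {ι : Type} [Fintype ι] [DecidableEq ι] {K : Type} [Field K] {L : Type} [CommRing L]

/-- polynomials with monomials of one weight -/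
def CLW (β : ι → K) (ω : K) (P : MvPolynomial ι L) : Prop :=
  ∀ m : ι →₀ ℕ, wk β m ≠ ω → coeff m P = 0

theorem CLW.add {β : ι → K} {ω : K} {P Q : MvPolynomial ι L} (h : CLW β ω P) (h' : CLW β ω Q) :
    CLW β ω (P + Q) := by
  intro m hm
  rw [coeff_add, h m hm, h' m hm, add_zero]

theorem CLW.sum {β : ι → K} {ω : K} {I : Type} (s : Finset I) (P : I → MvPolynomial ι L)
    (h : ∀ i ∈ s, CLW β ω (P i)) : CLW β ω (∑ i ∈ s, P i) := by
  intro m hm
  rw [coeff_sum]
  exact Finset.sum_eq_zero fun i hi => h i hi m hm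

theorem CLW.mul {β : ι → K} {ω ω' : K} {P Q : MvPolynomial ι L} (h : CLW β ω P) (h' : CLW β ω' Q) :
    CLW β (ω * ω') (P * Q) := by
  intro m hm
  rw [coeff_mul]
  refine Finset.sum_eq_zero fun x hx => ?_
  rw [Finset.HasAntidiagonal.mem_antidiagonal] at hx
  by_cases h1 : wk β x.1 = ω
  · by_cases h2 : wk β x.2 = ω'
    · exfalso
      apply hm
      rw [← hx, wk_add, h1, h2]
    · rw [h' _ h2, mul_zero]
  · rw [h _ h1, zero_mul]

theorem CLW.monomial (β : ι → K) (w : ι →₀ ℕ) (r : L) :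
    CLW β (wk β w) (MvPolynomial.monomial w r) := by
  intro m hm
  rw [coeff_monomial, if_neg]
  rintro rfl
  exact hm rfl

theorem CLW.pderiv {β : ι → K} {e : ℕ} (hβ : ∀ i, β i ^ (e + 1) = 1) {ω : K} {P : MvPolynomial ι L}
    (h : CLW β ω P) (i : ι) : CLW β (ω * β i ^ e) (MvPolynomial.pderiv i P) := by
  intro m hm
  rw [coeff_pderiv, h, zero_mul]
  intro h1
  apply hm
  rw [wk_add, wk_single, pow_one] at h1
  rw [← h1, mul_assoc, ← pow_succ', hβ, mul_one]

theorem CLW.yop {β : ι → K} {e : ℕ} (hβ : ∀ i, β i ^ (e + 1) = 1) {ω : K} {H P : MvPolynomial ι L}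
    (hH : CLW β 1 H) (h : CLW β ω P) (i : ι) : CLW β (ω * β i ^ e) (H425.yop H i P) := by
  rw [yop_apply]
  refine (h.pderiv hβ i).add ?_
  have := (hH.pderiv hβ i).mul h
  rwa [one_mul, mul_comm] at this

theorem CLW.yp {β : ι → K} {e : ℕ} (hβ : ∀ i, β i ^ (e + 1) = 1) {H : MvPolynomial ι L}
    (hH : CLW β 1 H) (γ : ι →₀ ℕ) :
    ∀ {ω : K} {P : MvPolynomial ι L}, CLW β ω P → CLW β (ω * wk β γ ^ e) (H425.yp H γ P) := by
  induction γ using Finsupp.induction_linear with
  | zero =>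
    intro ω P hP
    rw [yp_zero, wk_zero, one_pow, mul_one]
    exact hP
  | add f g hf hg =>
    intro ω P hP
    rw [yp_add, Module.End.mul_apply, wk_add, mul_pow, mul_comm (wk β f ^ e), ← mul_assoc]
    exact hf (hg hP)
  | single i a =>
    rw [yp_single, wk_single]
    induction a with
    | zero =>
      intro ω P hP
      rw [pow_zero, pow_zero, one_pow, mul_one]
      exact hP
    | succ a ih =>
      intro ω P hP
      rw [pow_succ' (H425.yop H i), Module.End.mul_apply, pow_succ (β i), mul_pow, ← mul_assoc]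
      exact CLW.yop hβ hH (ih hP) i

theorem emb_rm_qt (e : ℕ) (he : 0 < e) (u : ι →₀ ℕ) : emb (rm e he u) + e • qt e u = u := by
  ext i
  rw [Finsupp.add_apply, Finsupp.smul_apply, smul_eq_mul]
  exact Nat.mod_add_div (u i) e

/-- the operator `Phi` respects the weights -/
theorem Phi_wk {β : ι → K} {e : ℕ} (he : 0 < e) (hβ : ∀ i, β i ^ (e + 1) = 1)
    {H : MvPolynomial ι L} (hH : CLW β 1 H) (u v : ι →₀ ℕ) (huv : wk β v ≠ wk β u) :
    coeff v (Phi H e he emb (monomial u (1 : L))) = 0 := by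
  rw [Phi_monomial]
  have h1 := CLW.yp hβ hH (qt e u) (CLW.monomial β (emb (rm e he u)) (1 : L))
  apply h1 v
  rwa [← wk_nsmul, ← wk_add, emb_rm_qt]

theorem Phi_deg {e : ℕ} (he : 0 < e) {H : MvPolynomial ι L} (hH : CL (e + 1) 0 H)
    {b : (ι → Fin e) → (ι →₀ ℕ)} (hb : ∀ u, (b u).degree = ∑ i, (u i : ℕ)) (u v : ι →₀ ℕ)
    (hv : ¬ (v.degree ≡ u.degree [MOD (e + 1)])) :
    coeff v (Phi H e he b (monomial u (1 : L))) = 0 := by
  rw [Phi_monomial]
  have h1 := CL.yp hH (qt e u) (CL.monomial (d := e + 1) (b (rm e he u)) (1 : L))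
  rw [hb, degree_qt_rm] at h1
  exact h1 v hv

end CLW

section dg

variable {ι : Type} [Fintype ι] [DecidableEq ι] {L : Type} [CommRing L]

/-- the diagonal operator -/
noncomputable def dg (χ : (ι →₀ ℕ) → L) : MvPolynomial ι L →ₗ[L] MvPolynomial ι L :=
  (basisMonomials ι L).constr L (fun w => monomial w (χ w))

theorem dg_monomial (χ : (ι →₀ ℕ) → L) (w : ι →₀ ℕ) :
    dg χ (monomial w (1 : L)) = monomial w (χ w) := by
  have := (basisMonomials ι L).constr_basis L (fun w : ι →₀ ℕ => monomial w (χ w)) w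
  rw [coe_basisMonomials] at this
  exact this

theorem coeff_dg (χ : (ι →₀ ℕ) → L) (P : MvPolynomial ι L) (v : ι →₀ ℕ) :
    coeff v (dg χ P) = χ v * coeff v P := by
  have h : (lcoeff L v) ∘ₗ (dg χ) = χ v • lcoeff L v := by
    refine linmap_ext fun u => ?_
    rw [LinearMap.comp_apply, dg_monomial, lcoeff_apply, LinearMap.smul_apply, lcoeff_apply,
      coeff_monomial, coeff_monomial, smul_eq_mul]
    split_ifs with h
    · rw [h, mul_one]
    · rw [mul_zero]
  exact LinearMap.congr_fun h P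

/-- the operator commutes with the diagonal operator -/
def CX (χ : (ι →₀ ℕ) → L) (T : MvPolynomial ι L →ₗ[L] MvPolynomial ι L) : Prop :=
  ∀ P, T (dg χ P) = dg χ (T P)

theorem CX.of_coeff {χ : (ι →₀ ℕ) → L} {T : MvPolynomial ι L →ₗ[L] MvPolynomial ι L}
    (h : ∀ u v : ι →₀ ℕ, χ v ≠ χ u → coeff v (T (monomial u 1)) = 0) : CX χ T := by
  intro P
  have h1 : T ∘ₗ dg χ = dg χ ∘ₗ T := by
    refine linmap_ext fun u => ?_
    rw [LinearMap.comp_apply, LinearMap.comp_apply, dg_monomial]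
    have e1 : (monomial u (χ u) : MvPolynomial ι L) = χ u • monomial u 1 := by
      rw [smul_monomial, smul_eq_mul, mul_one]
    rw [e1, map_smul]
    ext v
    rw [coeff_smul, coeff_dg, smul_eq_mul]
    by_cases hv : χ v = χ u
    · rw [hv]
    · rw [h u v hv, mul_zero, mul_zero]
  exact LinearMap.congr_fun h1 P

theorem CX.comp {χ : (ι →₀ ℕ) → L} {T T' : MvPolynomial ι L →ₗ[L] MvPolynomial ι L} (h : CX χ T)
    (h' : CX χ T') : CX χ (T ∘ₗ T') := by
  intro P
  rw [LinearMap.comp_apply, LinearMap.comp_apply, h', h]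

theorem CX.symm {χ : (ι →₀ ℕ) → L} {E : MvPolynomial ι L ≃ₗ[L] MvPolynomial ι L}
    (h : CX χ E.toLinearMap) : CX χ E.symm.toLinearMap := by
  intro P
  apply E.injective
  have h1 := h (E.symm P)
  change E (dg χ (E.symm P)) = dg χ (E (E.symm P)) at h1
  change E (E.symm (dg χ P)) = E (dg χ (E.symm P))
  rw [h1, E.apply_symm_apply, E.apply_symm_apply]

theorem dg_mem (χ : (ι →₀ ℕ) → L) {M : ℕ} {P : MvPolynomial ι L} (hP : P ∈ VV ι L M) :
    dg χ P ∈ VV ι L M := by
  intro m hm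
  rw [coeff_dg, hP m hm, mul_zero]

/-- the weighted trace -/
noncomputable def xtr (χ : (ι →₀ ℕ) → L) (M : ℕ) (T : MvPolynomial ι L →ₗ[L] MvPolynomial ι L) : L :=
  ∑ v ∈ DD ι M, χ v * coeff v (T (monomial v 1))

theorem xtr_eq (χ : (ι →₀ ℕ) → L) (M : ℕ) (T : MvPolynomial ι L →ₗ[L] MvPolynomial ι L) :
    xtr χ M T = (mat M (dg χ ∘ₗ T)).trace := by
  rw [xtr, Matrix.trace, ← Finset.sum_coe_sort (DD ι M)]
  refine Finset.sum_congr rfl fun v _ => ?_
  rw [Matrix.diag_apply, mat, LinearMap.comp_apply, coeff_dg]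

end dg

section kernel

variable {p d : ℕ} [hp : Fact p.Prime] {K R : Type} [Field K] [CommRing R] [IsDomain R]
  (S : Setup p d K R) {ι : Type} [Fintype ι] [DecidableEq ι]

/-- power series with monomials of weight one -/
def Spw (β : ι → K) (F : MvPowerSeries ι R) : Prop :=
  ∀ w : ι →₀ ℕ, wk β w ≠ 1 → MvPowerSeries.coeff w F = 0

theorem Spw.mul {β : ι → K} {F G : MvPowerSeries ι R} (hF : Spw β F) (hG : Spw β G) :
    Spw β (F * G) := by
  intro w hw
  rw [MvPowerSeries.coeff_mul]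
  refine Finset.sum_eq_zero fun x hx => ?_
  rw [Finset.HasAntidiagonal.mem_antidiagonal] at hx
  by_cases h1 : wk β x.1 = 1
  · by_cases h2 : wk β x.2 = 1
    · exfalso
      apply hw
      rw [← hx, wk_add, h1, h2, one_mul]
    · rw [hG _ h2, mul_zero]
  · rw [hF _ h1, zero_mul]

theorem Spw.one (β : ι → K) : Spw β (1 : MvPowerSeries ι R) := by
  intro w hw
  rw [MvPowerSeries.coeff_one, if_neg]
  rintro rfl
  exact hw (wk_zero β)

theorem Spw.prod {β : ι → K} {T : Type} (s : Finset T) (F : T → MvPowerSeries ι R)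
    (h : ∀ l ∈ s, Spw β (F l)) : Spw β (∏ l ∈ s, F l) := by
  classical
  induction s using Finset.induction_on with
  | empty =>
    rw [Finset.prod_empty]
    exact Spw.one β
  | insert i s hi ih =>
    rw [Finset.prod_insert hi]
    exact (h i (by simp)).mul (ih fun l hl => h l (by simp [hl]))

theorem Spw_FF (β : ι → K) (supp : Finset (ι →₀ ℕ)) (c : (ι →₀ ℕ) → R)
    (hs : ∀ s ∈ supp, wk β s = 1) : Spw β (S.FF supp c) := by
  apply Spw.prod
  intro s hs1 w hw
  apply S.coeff_Fs_ne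
  rintro j rfl
  apply hw
  rw [wk_nsmul, hs s hs1, one_pow]

theorem ker_wk (hp4 : 4 ≤ p) (β : ι → K) (hβ0 : ∀ i, β i ≠ 0) (hβ : ∀ i, β i ^ p = β i)
    (supp : Finset (ι →₀ ℕ)) (c : (ι →₀ ℕ) → R) (h0 : 0 ∉ supp) (hd : ∀ s ∈ supp, s.degree ≤ d)
    (hs : ∀ s ∈ supp, wk β s = 1) (V U : ι →₀ ℕ) (h : wk β V ≠ wk β U) :
    S.ker supp c V U = 0 := by
  have h1 := (S.ker_spec (by omega) supp c h0 hd V U).2
  have h2 : S.Gk supp c V U = 0 := by
    rw [Setup.Gk]
    split_ifs with hU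
    · apply Spw_FF S β supp c hs
      intro hdv
      apply h
      have h3 : wk β (p • V - U) * wk β U = wk β (p • V) := by
        rw [← wk_add, tsub_add_cancel_of_le hU]
      have h4 : wk β (p • V) = wk β V := by
        rw [wk_nsmul, wk, ← Finset.prod_pow]
        refine Finset.prod_congr rfl fun i _ => ?_
        rw [← pow_mul, mul_comm, pow_mul, hβ]
      rw [← h4, ← h3, hdv, one_mul]
    · rfl
  rw [h2, mul_zero] at h1
  rcases mul_eq_zero.1 h1 with h3 | h3
  · exact absurd h3 (pow_ne_zero _ S.lam_ne)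
  · exact h3

end kernel

end Pool.Agent.H253.BK
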